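import Pool.Agent.Helper8.Loc.Level

/-!
Reduction of the critical property to a statement on a minimal generic configuration.
-/

namespace Pool.Agent.Helper8.Loc

open Module Matrix Pool.Agent.Helper5

variable {K : Type*} [Field K] {w n : ℕ}
variable (M : ℕ → Matrix (Fin w) (Fin w) (MvPolynomial (Fin n) K))

open Classical in
/-- `y` on `S`, `γ` elsewhere -/
noncomputable def put (γ : Fin n → K) (S : Finset (Fin n)) (y : Fin n → K) : Fin n → K :=
  fun i => if i ∈ S then y i else γ i

theorem put_mem {γ : Fin n → K} {S : Finset (Fin n)} {y : Fin n → K} {i : Fin n} (h : i ∈ S) :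
    put γ S y i = y i := by simp [put, h]

theorem put_not_mem {γ : Fin n → K} {S : Finset (Fin n)} {y : Fin n → K} {i : Fin n}
    (h : i ∉ S) : put γ S y i = γ i := by simp [put, h]

/-- Core property: in a minimal generic configuration the set of free variables is small. -/
def CritCore (N κ : ℕ) : Prop :=
  ∀ (γ y : Fin n → K) (S : Finset (Fin n)) (a b : ℕ), a ≤ b → b ≤ N →
    ∀ (R : ℕ), R ≤ w → ∀ (U : Matrix (Fin R) (Fin w) K) (V : Matrix (Fin w) (Fin R) K),
    (U * P M (put γ S y) a b * V).det ≠ 0 →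
    (∀ τ : Finset (Fin n), τ ⊂ S → (U * P M (put γ τ y) a b * V).det = 0) →
    (∀ τ : Finset (Fin n), τ ⊆ S → ∀ a' b', a < a' → a' ≤ b' → b' < b →
      (P M (put γ τ y) a' b').rank = rho M a' b') →
    S.card ≤ κ

theorem isPolyMap_put (γ : Fin n → K) (S : Finset (Fin n)) :
    IsPolyMap (σ := Fin n) (fun y : Fin n → K => put γ S y) := by
  classical
  refine ⟨fun i => if i ∈ S then MvPolynomial.X i else MvPolynomial.C (γ i), fun s i => ?_⟩
  by_cases h : i ∈ S <;> simp [put, h]

theorem put_self (γ : Fin n → K) (S : Finset (Fin n)) : put γ S γ = γ := by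
  funext i; by_cases h : i ∈ S <;> simp [put, h]

theorem exists_generic [Infinite K] (γ y0 : Fin n → K) (S : Finset (Fin n)) (N a b : ℕ) {R : ℕ}
    (U : Matrix (Fin R) (Fin w) K) (V : Matrix (Fin w) (Fin R) K)
    (h : (U * P M (put γ S y0) a b * V).det ≠ 0) :
    ∃ y, (U * P M (put γ S y) a b * V).det ≠ 0 ∧
      ∀ τ : Finset (Fin n), τ ⊆ S → ∀ a' b', a' ≤ b' → b' ≤ N →
        (P M γ a' b').rank ≤ (P M (put γ τ y) a' b').rank := by
  classical
  obtain ⟨p0, hp0⟩ := det_poly M (isPolyMap_put γ S) U V a b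
  have hU : ∀ a' b', ∃ (U' : Matrix (Fin (P M γ a' b').rank) (Fin w) K)
      (V' : Matrix (Fin w) (Fin (P M γ a' b').rank) K), U' * P M γ a' b' * V' = 1 :=
    fun a' b' => exists_mul_eq_one_of_le_rank _ le_rfl
  choose U' V' hUV using hU
  have hp : ∀ (t : Finset (Fin n) × ℕ × ℕ), ∃ p : MvPolynomial (Fin n) K, ∀ s,
      MvPolynomial.eval s p =
        (U' t.2.1 t.2.2 * P M (put γ t.1 s) t.2.1 t.2.2 * V' t.2.1 t.2.2).det :=
    fun t => det_poly M (isPolyMap_put γ t.1) _ _ _ _
  choose p hp using hp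
  set J : Finset (Option (Finset (Fin n) × ℕ × ℕ)) :=
    insert none ((S.powerset ×ˢ (Finset.range (N + 1)) ×ˢ (Finset.range (N + 1))).map
      ⟨some, Option.some_injective _⟩) with hJ
  obtain ⟨y, hy⟩ := exists_common_poly J (fun t => t.elim p0 p) (by
    intro t _
    cases t with
    | none => exact ⟨y0, by simp only [Option.elim]; rw [hp0]; exact h⟩
    | some t =>
      refine ⟨γ, ?_⟩
      simp only [Option.elim]
      rw [hp, put_self, hUV, Matrix.det_one]
      exact one_ne_zero)
  refine ⟨y, ?_, ?_⟩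
  · have := hy none (by simp [hJ])
    simp only [Option.elim] at this
    rwa [hp0] at this
  · intro τ hτ a' b' h1 h2
    have := hy (some (τ, a', b')) (by
      simp only [hJ, Finset.mem_insert, Finset.mem_map, Finset.mem_product, Finset.mem_powerset,
        Finset.mem_range, Function.Embedding.coeFn_mk]
      right
      exact ⟨(τ, a', b'), ⟨hτ, by simp only; omega, by simp only; omega⟩, rfl⟩)
    simp only [Option.elim] at this
    rw [hp] at this
    exact le_rank_of_det_ne_zero _ _ this

theorem crit_of_core [Infinite K] (N κ : ℕ) (h : CritCore M N κ) : Crit M N κ := by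
  classical
  intro γ a b hab hbN hgood R hR U V hx
  -- minimal size
  have hex : ∃ m, ∃ (S : Finset (Fin n)) (y : Fin n → K), S.card = m ∧
      (U * P M (put γ S y) a b * V).det ≠ 0 := by
    obtain ⟨x, hx⟩ := hx
    refine ⟨_, Finset.univ, x, rfl, ?_⟩
    have : put γ Finset.univ x = x := by funext i; simp [put]
    rw [this]; exact hx
  obtain ⟨S, y0, hcard, hdet⟩ := Nat.find_spec hex
  have hmin : ∀ (S' : Finset (Fin n)) (y' : Fin n → K), S'.card < S.card →
      (U * P M (put γ S' y') a b * V).det = 0 := by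
    intro S' y' hlt
    by_contra hne
    rw [hcard] at hlt
    exact Nat.find_min hex hlt ⟨S', y', rfl, hne⟩
  obtain ⟨y, hdet', hrank⟩ := exists_generic M γ y0 S N a b U V hdet
  refine ⟨put γ S y, S, ?_, fun i hi => put_not_mem hi, hdet'⟩
  apply h γ y S a b hab hbN R hR U V hdet'
  · intro τ hτ
    exact hmin τ y (Finset.card_lt_card hτ)
  · intro τ hτ a' b' h1 h2 h3
    apply le_antisymm (rank_le_rho M _ _ _)
    exact (hgood a' b' h1 h2 h3).trans (hrank τ hτ a' b' h2 (by omega))

end Pool.Agent.Helper8.Loc
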