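import Pool.Agent.Helper5.Homog
import Pool.Agent.Helper8.Loc.Critical
import Pool.Agent.Helper8.Tile
import Pool.Agent.Helper8.PolySpace

/-!
The critical property for layered programs with local layers reading every variable at most `k`
times.
-/

namespace Pool.Agent.Helper8.Loc

open Module Matrix Pool.Agent.Helper5 Pool.Agent.Helper8

variable {K : Type*} [Field K] {w n : ℕ}
variable (M : ℕ → Matrix (Fin w) (Fin w) (MvPolynomial (Fin n) K))

section Pt

open Classical in
/-- `S` without the letters `s l`, `l < q`, for which `σ l` fails -/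
noncomputable def pset (S : Finset (Fin n)) (s : ℕ → Fin n) (q : ℕ) (σ : ℕ → Prop) :
    Finset (Fin n) :=
  S.filter (fun i => ∀ l < q, s l = i → σ l)

theorem pset_subset (S : Finset (Fin n)) (s : ℕ → Fin n) (q : ℕ) (σ : ℕ → Prop) :
    pset S s q σ ⊆ S := by
  classical
  exact Finset.filter_subset _ _

theorem pset_top (S : Finset (Fin n)) (s : ℕ → Fin n) (q : ℕ) (σ : ℕ → Prop)
    (h : ∀ l < q, σ l) : pset S s q σ = S := by
  classical
  unfold pset
  rw [Finset.filter_eq_self]
  intro i _ l hl _
  exact h l hl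

theorem pset_ssubset (S : Finset (Fin n)) (s : ℕ → Fin n) (q : ℕ) (σ : ℕ → Prop)
    (hs : ∀ l < q, s l ∈ S) (h : ∃ l < q, ¬ σ l) : pset S s q σ ⊂ S := by
  classical
  rw [Finset.ssubset_iff_of_subset (pset_subset S s q σ)]
  obtain ⟨l, hl, hσ⟩ := h
  refine ⟨s l, hs l hl, ?_⟩
  intro hmem
  unfold pset at hmem
  rw [Finset.mem_filter] at hmem
  exact hσ (hmem.2 l hl rfl)

/-- the point with the letters `s l`, `¬ σ l` reset to `γ` -/
noncomputable def pt (γ y : Fin n → K) (S : Finset (Fin n)) (s : ℕ → Fin n) (q : ℕ)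
    (σ : ℕ → Prop) : Fin n → K := put γ (pset S s q σ) y

theorem pt_congr (γ y : Fin n → K) (S : Finset (Fin n)) (s : ℕ → Fin n) (q : ℕ)
    (σ σ' : ℕ → Prop) (i : Fin n) (h : ∀ l < q, s l = i → (σ l ↔ σ' l)) :
    pt γ y S s q σ i = pt γ y S s q σ' i := by
  classical
  have : i ∈ pset S s q σ ↔ i ∈ pset S s q σ' := by
    unfold pset
    rw [Finset.mem_filter, Finset.mem_filter]
    constructor
    · rintro ⟨h1, h2⟩
      exact ⟨h1, fun l hl hli => (h l hl hli).mp (h2 l hl hli)⟩
    · rintro ⟨h1, h2⟩
      exact ⟨h1, fun l hl hli => (h l hl hli).mpr (h2 l hl hli)⟩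
  unfold pt
  by_cases h1 : i ∈ pset S s q σ
  · rw [put_mem h1, put_mem (this.mp h1)]
  · rw [put_not_mem h1, put_not_mem (fun h2 => h1 (this.mpr h2))]

end Pt

section Q

/-- product of the layers between two cuts of a pass -/
noncomputable def Q (dir : Bool) (x : ℕ → ℕ) (g : Fin n → K) (i j : ℕ) :
    Matrix (Fin w) (Fin w) K :=
  if dir = true then P M g (x i) (x j) else (P M g (x j) (x i))ᵀ

/-- generic rank between two cuts of a pass -/
noncomputable def rk (dir : Bool) (x : ℕ → ℕ) (i j : ℕ) : ℕ :=
  if dir = true then rho M (x i) (x j) else rho M (x j) (x i)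

theorem rank_Q_le (dir : Bool) (x : ℕ → ℕ) (g : Fin n → K) (i j : ℕ) :
    (Q M dir x g i j).rank ≤ rk M dir x i j := by
  unfold Q rk
  split_ifs with h
  · exact rank_le_rho M g _ _
  · rw [Matrix.rank_transpose]; exact rank_le_rho M g _ _

/-- monotone or antitone according to the direction -/
def Dir (dir : Bool) (x : ℕ → ℕ) : Prop := (dir = true → Monotone x) ∧ (dir = false → Antitone x)

theorem Q_self (dir : Bool) (x : ℕ → ℕ) (g : Fin n → K) (i : ℕ) :
    Q M dir x g i i = 1 := by
  unfold Q
  split_ifs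
  · exact P_self M g _
  · rw [P_self, Matrix.transpose_one]

theorem Q_mul {dir : Bool} {x : ℕ → ℕ} (hx : Dir dir x) (g : Fin n → K) {i j l : ℕ}
    (h1 : i ≤ j) (h2 : j ≤ l) :
    Q M dir x g i j * Q M dir x g j l = Q M dir x g i l := by
  unfold Q
  cases dir with
  | true =>
    simp only [if_true]
    exact P_mul M g (hx.1 rfl h1) (hx.1 rfl h2)
  | false =>
    simp only [Bool.false_eq_true, if_false]
    rw [← Matrix.transpose_mul]
    congr 1
    exact P_mul M g (hx.2 rfl h2) (hx.2 rfl h1)

theorem seg_Q {dir : Bool} {x : ℕ → ℕ} (hx : Dir dir x) (g : Fin n → K) {i j : ℕ} (h : i ≤ j) :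
    seg (fun l => Q M dir x g l (l + 1)) i j = Q M dir x g i j := by
  induction j, h using Nat.le_induction with
  | base => rw [seg_self, Q_self]
  | succ j h ih => rw [seg_succ _ h, ih, Q_mul M hx g h (Nat.le_succ j)]

theorem rk_anti {dir : Bool} {x : ℕ → ℕ} (hx : Dir dir x) {i i' j' j : ℕ} (h1 : i ≤ i')
    (h2 : i' ≤ j') (h3 : j' ≤ j) : rk M dir x i j ≤ rk M dir x i' j' := by
  unfold rk
  cases dir with
  | true =>
    simp only [if_true]
    exact rho_anti M (hx.1 rfl h1) (hx.1 rfl h2) (hx.1 rfl h3)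
  | false =>
    simp only [Bool.false_eq_true, if_false]
    exact rho_anti M (hx.2 rfl h3) (hx.2 rfl h2) (hx.2 rfl h1)

theorem rk_le (dir : Bool) (x : ℕ → ℕ) (i j : ℕ) : rk M dir x i j ≤ w := by
  unfold rk
  split_ifs <;> exact rho_le M _ _

theorem pass_dir {ι : Type*} {ν s : ℕ → ι} {B : Finset ℕ} {c d : ℕ} {dir : Bool} {x : ℕ → ℕ}
    (h : Pass ν s B c d dir x) : Dir dir x :=
  ⟨fun hd => (h.2.1 hd).1, fun hd => (h.2.2 hd).1⟩

variable {M}

/-- the block of a letter -/
theorem Q_block (γ y : Fin n → K) (S : Finset (Fin n)) (s : ℕ → Fin n) (q : ℕ) {c d : ℕ}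
    {ν : ℕ → Option (Fin n)} (hν : ∀ j, c ≤ j → j < d → ∀ l < q, Occ M j (s l) → ν j = some (s l))
    {dir : Bool} {x : ℕ → ℕ}
    (h : Pass ν (fun l => some (s l)) (Finset.range q) c d dir x) (σ σ' : ℕ → Prop) {l : ℕ}
    (hσ : σ l ↔ σ' l) :
    Q M dir x (pt γ y S s q σ) l (l + 1) = Q M dir x (pt γ y S s q σ') l (l + 1) := by
  unfold Q
  cases dir with
  | true =>
    simp only [if_true]
    apply P_congr
    intro j h1 h2 i hi
    apply pt_congr
    intro l' hl' hj
    have hcj : c ≤ j := (h.1 l).1.trans h1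
    have hjd : j < d := lt_of_lt_of_le h2 (h.1 _).2
    have hj' := hν j hcj hjd l' hl' (by rw [hj]; exact hi)
    obtain ⟨h3, h4⟩ := (h.2.1 rfl).2 j hcj hjd l' (Finset.mem_range.mpr hl') hj'
    have hm := (h.2.1 rfl).1
    have : l' = l := by
      rcases lt_trichotomy l' l with h5 | h5 | h5
      · have := hm (show l' + 1 ≤ l from h5)
        omega
      · exact h5
      · have := hm (show l + 1 ≤ l' from h5)
        omega
    rw [this]; exact hσ
  | false =>
    simp only [Bool.false_eq_true, if_false]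
    congr 1
    apply P_congr
    intro j h1 h2 i hi
    apply pt_congr
    intro l' hl' hj
    have hcj : c ≤ j := (h.1 _).1.trans h1
    have hjd : j < d := lt_of_lt_of_le h2 (h.1 _).2
    have hj' := hν j hcj hjd l' hl' (by rw [hj]; exact hi)
    obtain ⟨h3, h4⟩ := (h.2.2 rfl).2 j hcj hjd l' (Finset.mem_range.mpr hl') hj'
    have hm := (h.2.2 rfl).1
    have : l' = l := by
      rcases lt_trichotomy l' l with h5 | h5 | h5
      · have := hm (show l' + 1 ≤ l from h5)
        omega
      · exact h5
      · have := hm (show l + 1 ≤ l' from h5)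
        omega
    rw [this]; exact hσ

/-- the lower and upper ends of a pass -/
def plo (dir : Bool) (x : ℕ → ℕ) (q : ℕ) : ℕ := if dir = true then x 0 else x q
/-- the upper end of a pass -/
def phi (dir : Bool) (x : ℕ → ℕ) (q : ℕ) : ℕ := if dir = true then x q else x 0

/-- transpose for decreasing passes -/
def tw (dir : Bool) (A : Matrix (Fin w) (Fin w) K) : Matrix (Fin w) (Fin w) K :=
  if dir = true then A else Aᵀ

theorem P_pass (γ y : Fin n → K) (S : Finset (Fin n)) (s : ℕ → Fin n) (q : ℕ) {c d : ℕ}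
    {ν : ℕ → Option (Fin n)} (hν : ∀ j, c ≤ j → j < d → ∀ l < q, Occ M j (s l) → ν j = some (s l))
    {dir : Bool} {x : ℕ → ℕ} (h : Pass ν (fun l => some (s l)) (Finset.range q) c d dir x)
    (σ σ' : ℕ → Prop) :
    P M (pt γ y S s q σ) c d = P M (pt γ y S s q σ') c (plo dir x q) *
      tw dir (Q M dir x (pt γ y S s q σ) 0 q) *
      P M (pt γ y S s q σ') (phi dir x q) d := by
  have hc : c ≤ plo dir x q := by unfold plo; split_ifs; exacts [(h.1 _).1, (h.1 _).1]
  have hd : phi dir x q ≤ d := by unfold phi; split_ifs; exacts [(h.1 _).2, (h.1 _).2]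
  have hm : plo dir x q ≤ phi dir x q := by
    unfold plo phi
    cases dir with
    | true => simp only [if_true]; exact (h.2.1 rfl).1 (Nat.zero_le _)
    | false => simp only [Bool.false_eq_true, if_false]; exact (h.2.2 rfl).1 (Nat.zero_le _)
  have e1 : P M (pt γ y S s q σ') c (plo dir x q) = P M (pt γ y S s q σ) c (plo dir x q) := by
    apply P_congr
    intro j h1 h2 i hi
    apply pt_congr
    intro l hl hj
    exfalso
    rw [← hj] at hi
    cases dir with
    | true =>
      simp only [plo, if_true] at h2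
      have hjd : j < d := lt_of_lt_of_le h2 (h.1 _).2
      obtain ⟨h3, h4⟩ := (h.2.1 rfl).2 j h1 hjd l (Finset.mem_range.mpr hl) (hν j h1 hjd l hl hi)
      have := (h.2.1 rfl).1 (Nat.zero_le l)
      omega
    | false =>
      simp only [plo, Bool.false_eq_true, if_false] at h2
      have hjd : j < d := lt_of_lt_of_le h2 (h.1 _).2
      obtain ⟨h3, h4⟩ := (h.2.2 rfl).2 j h1 hjd l (Finset.mem_range.mpr hl) (hν j h1 hjd l hl hi)
      have := (h.2.2 rfl).1 (show l + 1 ≤ q from hl)
      omega
  have e2 : P M (pt γ y S s q σ') (phi dir x q) d = P M (pt γ y S s q σ) (phi dir x q) d := by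
    apply P_congr
    intro j h1 h2 i hi
    apply pt_congr
    intro l hl hj
    exfalso
    rw [← hj] at hi
    cases dir with
    | true =>
      simp only [phi, if_true] at h1
      have hcj : c ≤ j := (h.1 _).1.trans h1
      obtain ⟨h3, h4⟩ := (h.2.1 rfl).2 j hcj h2 l (Finset.mem_range.mpr hl) (hν j hcj h2 l hl hi)
      have := (h.2.1 rfl).1 (show l + 1 ≤ q from hl)
      omega
    | false =>
      simp only [phi, Bool.false_eq_true, if_false] at h1
      have hcj : c ≤ j := (h.1 _).1.trans h1
      obtain ⟨h3, h4⟩ := (h.2.2 rfl).2 j hcj h2 l (Finset.mem_range.mpr hl) (hν j hcj h2 l hl hi)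
      have := (h.2.2 rfl).1 (Nat.zero_le l)
      omega
  have e3 : tw dir (Q M dir x (pt γ y S s q σ) 0 q) =
      P M (pt γ y S s q σ) (plo dir x q) (phi dir x q) := by
    cases dir with
    | true => simp [tw, Q, plo, phi]
    | false => simp [tw, Q, plo, phi]
  rw [e1, e2, e3, P_mul M _ hc hm, P_mul M _ (hc.trans hm) hd]

end Q

section Main

theorem seg_apply (f : ℕ → (ℕ → Matrix (Fin w) (Fin w) K)) (i j c : ℕ) :
    (seg f i j) c = seg (fun l => f l c) i j := by
  unfold seg
  have := map_list_prod (Pi.evalMonoidHom (fun _ : ℕ => Matrix (Fin w) (Fin w) K) c)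
    ((List.Ico i j).map f)
  rw [Pi.evalMonoidHom_apply, List.map_map] at this
  exact this

theorem seg_ones {MM : Type*} [Monoid MM] (i j : ℕ) : seg (fun _ => (1 : MM)) i j = 1 := by
  unfold seg
  simp

/-- the matrix valued function of the letters -/
noncomputable def G (t : ℕ) (dir : ℕ → Bool) (L R : ℕ → Matrix (Fin w) (Fin w) K)
    (C : ℕ → Matrix (Fin w) (Fin w) K) : Matrix (Fin w) (Fin w) K :=
  seg (fun c => L c * tw (dir c) (C c) * R c) 0 t

theorem Pol_G (t : ℕ) (dir : ℕ → Bool) (L R : ℕ → Matrix (Fin w) (Fin w) K)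
    (E : ℕ → Matrix (Fin w) (Fin w) K) : ∀ t' ≤ t, Pol t t' (fun C => G t' dir L R (E * C)) := by
  intro t'
  induction t' with
  | zero =>
    intro _
    unfold G
    simp only [seg_self]
    exact Pol.const t 0 1
  | succ t' ih =>
    intro ht'
    have h1 := ih (by omega)
    have h2 : Pol t 1 (fun C : (ℕ → Matrix (Fin w) (Fin w) K) => tw (dir t') ((E * C) t')) := by
      unfold tw
      split_ifs
      · exact Pol.coord (by omega) E
      · exact (Pol.coord (by omega) E).transpose
    have h3 : Pol t 1 (fun C : (ℕ → Matrix (Fin w) (Fin w) K) =>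
        L t' * tw (dir t') ((E * C) t') * R t') := by
      have := ((Pol.const t 0 (L t')).mul h2).mul (Pol.const t 0 (R t'))
      simpa using this
    have h4 := h1.mul h3
    unfold G at h4 ⊢
    simp only [seg_succ _ (Nat.zero_le t')]
    exact h4

theorem no_tiling (γ y : Fin n → K) (S : Finset (Fin n)) (a b : ℕ) (hab : a + 2 ≤ b)
    (R : ℕ) (hR : R ≤ w) (U : Matrix (Fin R) (Fin w) K) (V : Matrix (Fin w) (Fin R) K)
    (hdet : (U * P M (put γ S y) a b * V).det ≠ 0)
    (hmin : ∀ τ : Finset (Fin n), τ ⊂ S → (U * P M (put γ τ y) a b * V).det = 0)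
    (hrank : ∀ τ : Finset (Fin n), τ ⊆ S → ∀ a' b', a < a' → a' ≤ b' → b' < b →
      (P M (put γ τ y) a' b').rank = rho M a' b')
    (s : ℕ → Fin n) (T t W q : ℕ) (ht : t ≤ T)
    (hs : ∀ l < q, s l ∈ S ∧ ¬ Occ M a (s l) ∧ ¬ Occ M (b - 1) (s l))
    (ν : ℕ → Option (Fin n)) (hν : ∀ j, a ≤ j → j < b → ∀ l < q, Occ M j (s l) → ν j = some (s l))
    (htil : Tiling ν (fun l => some (s l)) (Finset.range q) (a + 1) (b - 1) t)
    (hW : (T * (w * w) + 1) ^ (T * w) ≤ W)
    (hq : (2 * W + 1) ^ (T * w + 1) ≤ q) : False := by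
  classical
  obtain ⟨e, x, dir, he0, het, hemono, hpass⟩ := htil
  -- bounds for the tiling
  have hemono' : ∀ i j, i ≤ j → j ≤ t → e i ≤ e j := by
    intro i j hij
    induction j, hij using Nat.le_induction with
    | base => intro _; exact le_rfl
    | succ j hij ih => intro hj; exact (ih (by omega)).trans (hemono j (by omega))
  have hx1 : ∀ c < t, ∀ l, a < x c l ∧ x c l < b := by
    intro c hc l
    have h1 := ((hpass c hc).1 l)
    have h2 := hemono' 0 c (Nat.zero_le _) hc.le
    have h3 := hemono' (c + 1) t hc le_rfl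
    omega
  have hν' : ∀ c < t, ∀ j, e c ≤ j → j < e (c + 1) → ∀ l < q, Occ M j (s l) → ν j = some (s l) := by
    intro c hc j h1 h2
    have h3 := hemono' 0 c (Nat.zero_le _) hc.le
    have h4 := hemono' (c + 1) t hc le_rfl
    exact hν j (by omega) (by omega)
  have hdir : ∀ c < t, Dir (dir c) (x c) := fun c hc => pass_dir (hpass c hc)
  -- the two sequences
  set gtop : Fin n → K := pt γ y S s q (fun _ => True) with hgtop
  set gbot : Fin n → K := pt γ y S s q (fun _ => False) with hgbot
  set av : ℕ → (ℕ → Matrix (Fin w) (Fin w) K) := fun l c =>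
    if c < t then Q M (dir c) (x c) gbot l (l + 1) else 1 with hav
  set bv : ℕ → (ℕ → Matrix (Fin w) (Fin w) K) := fun l c =>
    if c < t then Q M (dir c) (x c) gtop l (l + 1) else 1 with hbv
  have hmix : ∀ σ : ℕ → Prop, ∀ i j, i ≤ j → ∀ c < t,
      (seg (mix av bv σ) i j) c = Q M (dir c) (x c) (pt γ y S s q σ) i j := by
    intro σ i j hij c hc
    rw [seg_apply, ← seg_Q M (hdir c hc) _ hij]
    apply seg_congr
    intro l _ hl
    by_cases hσ : σ l
    · rw [mix_pos hσ]
      simp only [hbv, hc, if_true, hgtop]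
      exact Q_block γ y S s q (hν' c hc) (hpass c hc) _ _ (by simp [hσ])
    · rw [mix_neg hσ]
      simp only [hav, hc, if_true, hgbot]
      exact Q_block γ y S s q (hν' c hc) (hpass c hc) _ _ (by simp [hσ])
  have hmix' : ∀ σ : ℕ → Prop, ∀ i j, ∀ c, ¬ c < t → (seg (mix av bv σ) i j) c = 1 := by
    intro σ i j c hc
    rw [seg_apply, ← seg_ones i j]
    apply seg_congr
    intro l _ _
    by_cases hσ : σ l
    · rw [mix_pos hσ]; simp [hbv, hc]
    · rw [mix_neg hσ]; simp [hav, hc]
  -- the function
  set Lc : ℕ → Matrix (Fin w) (Fin w) K := fun c => P M gbot (e c) (plo (dir c) (x c) q)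
    with hLc
  set Rc : ℕ → Matrix (Fin w) (Fin w) K := fun c => P M gbot (phi (dir c) (x c) q) (e (c + 1))
    with hRc
  set Φ : (ℕ → Matrix (Fin w) (Fin w) K) → K := fun C =>
    (U * (P M gbot a (a + 1) * G t dir Lc Rc C * P M gbot (b - 1) b) * V).det with hΦ
  have hΦσ : ∀ σ : ℕ → Prop, Φ (seg (mix av bv σ) 0 q) =
      (U * P M (pt γ y S s q σ) a b * V).det := by
    intro σ
    simp only [hΦ]
    congr 3
    have e1 : P M gbot a (a + 1) = P M (pt γ y S s q σ) a (a + 1) := by
      apply P_congr
      intro j h1 h2 i hi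
      have : j = a := by omega
      subst this
      apply pt_congr
      intro l hl hj
      rw [← hj] at hi
      exact absurd hi (hs l hl).2.1
    have e2 : P M gbot (b - 1) b = P M (pt γ y S s q σ) (b - 1) b := by
      apply P_congr
      intro j h1 h2 i hi
      have : j = b - 1 := by omega
      subst this
      apply pt_congr
      intro l hl hj
      rw [← hj] at hi
      exact absurd hi (hs l hl).2.2
    have e3 : ∀ t' ≤ t, G t' dir Lc Rc (seg (mix av bv σ) 0 q) =
        P M (pt γ y S s q σ) (a + 1) (e t') := by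
      intro t'
      induction t' with
      | zero =>
        intro _
        unfold G
        rw [seg_self, he0, P_self]
      | succ t' ih =>
        intro ht'
        have h1 := ih (by omega)
        unfold G at h1 ⊢
        rw [seg_succ _ (Nat.zero_le t'), h1]
        rw [hmix σ 0 q (Nat.zero_le _) t' (by omega)]
        have h2 := P_pass (M := M) γ y S s q (hν' t' (by omega)) (hpass t' (by omega)) σ
          (fun _ => False)
        rw [← hgbot] at h2
        simp only [hLc, hRc]
        rw [← h2]
        apply P_mul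
        · have := hemono' 0 t' (Nat.zero_le _) (by omega)
          omega
        · exact hemono _ (by omega)
    rw [e1, e2, e3 t le_rfl, het, P_mul M _ (by omega) (by omega),
      P_mul M _ (by omega) (by omega)]
  -- finite-dimensional space
  have hV : ∀ L, tr K L Φ ∈ ((Aff K w t) ^ (t * R) :
      Submodule K ((ℕ → Matrix (Fin w) (Fin w) K) → K)) := by
    intro L
    have h1 := Pol_G t dir Lc Rc L t le_rfl
    have h2 : Pol t t (fun C : (ℕ → Matrix (Fin w) (Fin w) K) =>
        U * (P M gbot a (a + 1) * G t dir Lc Rc (L * C) * P M gbot (b - 1) b) * V) := by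
      have := ((Pol.const t 0 U).mul (((Pol.const t 0 (P M gbot a (a + 1))).mul h1).mul
        (Pol.const t 0 (P M gbot (b - 1) b)))).mul (Pol.const t 0 V)
      simpa using this
    exact h2.det
  have hfr : finrank K ((Aff K w t) ^ (t * R) :
      Submodule K ((ℕ → Matrix (Fin w) (Fin w) K) → K)) ≤ W := by
    refine (finrank_Aff_pow t (t * R)).trans (le_trans ?_ hW)
    calc (t * (w * w) + 1) ^ (t * R) ≤ (T * (w * w) + 1) ^ (t * R) :=
          Nat.pow_le_pow_left (Nat.succ_le_succ (Nat.mul_le_mul_right _ ht)) _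
      _ ≤ _ := Nat.pow_le_pow_right (Nat.succ_pos _) (Nat.mul_le_mul ht hR)
  -- homogeneous cuts
  set r : ℕ → ℕ → ℕ := fun i j => ∑ c ∈ Finset.range t, rk M (dir c) (x c) i j with hr
  have hranti : ∀ i i' j' j, i ≤ i' → i' ≤ j' → j' ≤ j → r i j ≤ r i' j' := by
    intro i i' j' j h1 h2 h3
    apply Finset.sum_le_sum
    intro c hc
    exact rk_anti M (hdir c (Finset.mem_range.mp hc)) h1 h2 h3
  have hrB : ∀ i j, r i j ≤ T * w := by
    intro i j
    calc r i j ≤ ∑ c ∈ Finset.range t, w := Finset.sum_le_sum (fun c _ => rk_le M _ _ _ _)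
      _ = t * w := by simp
      _ ≤ T * w := Nat.mul_le_mul_right _ ht
  obtain ⟨p, hp0, hpM, hpmono, hpr⟩ := homog (2 * W + 1) (Nat.succ_pos _) r (T * w) hranti hrB
    (T * w) 0 q (by omega) (by simpa using hq)
  have hpm : ∀ i j, i ≤ j → j ≤ 2 * W + 1 → p i ≤ p j := by
    intro i j hij
    induction j, hij using Nat.le_induction with
    | base => intro _; exact le_rfl
    | succ j hij ih => intro hj; exact (ih (by omega)).trans (hpmono j (by omega)).le
  have hbseg : ∀ i j, seg bv i j = seg (mix av bv (fun _ => True)) i j := by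
    intro i j
    apply seg_congr
    intro l _ _
    rw [mix_pos trivial]
  have haseg : ∀ i j, seg av i j = seg (mix av bv (fun _ => False)) i j := by
    intro i j
    apply seg_congr
    intro l _ _
    rw [mix_neg not_false]
  have hgtop' : gtop = put γ S y := by
    rw [hgtop]; unfold pt
    rw [pset_top S s q _ (fun _ _ => trivial)]
  refine chain Φ _ hV W hfr av bv q ?_ ?_ p hpmono hpM ?_
  · rw [hbseg, hΦσ, ← hgtop, hgtop']
    exact hdet
  · intro σ hσ
    rw [hΦσ]
    exact hmin _ (pset_ssubset S s q σ (fun l hl => (hs l hl).1) hσ)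
  · intro i hi
    have hlt1 : p (2 * i) < p (2 * i + 1) := hpmono _ (by omega)
    have hlt2 : p (2 * i + 1) < p (2 * i + 2) := hpmono _ (by omega)
    have hlt3 : p (2 * i + 2) < p (2 * i + 3) := hpmono _ (by omega)
    set σ : ℕ → Prop := fun l => ¬ (p (2 * i + 1) ≤ l ∧ l < p (2 * i + 2)) with hσ
    have es : seg bv (p (2 * i)) (p (2 * i + 1)) * seg av (p (2 * i + 1)) (p (2 * i + 2)) *
        seg bv (p (2 * i + 2)) (p (2 * i + 3)) = seg (mix av bv σ) (p (2 * i)) (p (2 * i + 3)) := by
      have e1 : seg bv (p (2 * i)) (p (2 * i + 1)) =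
          seg (mix av bv σ) (p (2 * i)) (p (2 * i + 1)) := by
        apply seg_congr
        intro l h1 h2
        rw [mix_pos (by simp only [hσ]; omega)]
      have e2 : seg av (p (2 * i + 1)) (p (2 * i + 2)) =
          seg (mix av bv σ) (p (2 * i + 1)) (p (2 * i + 2)) := by
        apply seg_congr
        intro l h1 h2
        rw [mix_neg (by simp only [hσ]; omega)]
      have e3 : seg bv (p (2 * i + 2)) (p (2 * i + 3)) =
          seg (mix av bv σ) (p (2 * i + 2)) (p (2 * i + 3)) := by
        apply seg_congr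
        intro l h1 h2
        rw [mix_pos (by simp only [hσ]; omega)]
      rw [e1, e2, e3, seg_mul _ hlt1.le hlt2.le, seg_mul _ (by omega) hlt3.le]
    rw [es]
    -- equality of ranks
    have hsum : r (p (2 * i)) (p (2 * i + 3)) = r (p (2 * i)) (p (2 * i + 1)) := by
      apply le_antisymm
      · exact hranti _ _ _ _ le_rfl hlt1.le (by omega)
      · rw [hpr (2 * i) (by omega)]
        exact hranti _ _ _ _ (hpm 0 (2 * i) (Nat.zero_le _) (by omega)) (by omega)
          (hpm (2 * i + 3) (2 * W + 1) (by omega) le_rfl)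
    have hcomp : ∀ c < t, rk M (dir c) (x c) (p (2 * i)) (p (2 * i + 3)) =
        rk M (dir c) (x c) (p (2 * i)) (p (2 * i + 1)) := by
      have h1 : ∀ c ∈ Finset.range t, rk M (dir c) (x c) (p (2 * i)) (p (2 * i + 3)) ≤
          rk M (dir c) (x c) (p (2 * i)) (p (2 * i + 1)) := by
        intro c hc
        exact rk_anti M (hdir c (Finset.mem_range.mp hc)) le_rfl hlt1.le (by omega)
      intro c hc
      exact (Finset.sum_eq_sum_iff_of_le h1).mp hsum c (Finset.mem_range.mpr hc)
    have hZ : ∀ c, ∃ Z : Matrix (Fin w) (Fin w) K,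
        (seg (mix av bv σ) (p (2 * i)) (p (2 * i + 3))) c * Z =
        (seg bv (p (2 * i)) (p (2 * i + 1))) c := by
      intro c
      rw [hbseg]
      by_cases hc : c < t
      · rw [hmix σ _ _ (by omega) c hc, hmix (fun _ => True) _ _ hlt1.le c hc]
        have e1 : Q M (dir c) (x c) (pt γ y S s q σ) (p (2 * i)) (p (2 * i + 3)) =
            Q M (dir c) (x c) (pt γ y S s q (fun _ => True)) (p (2 * i)) (p (2 * i + 1)) *
            Q M (dir c) (x c) (pt γ y S s q σ) (p (2 * i + 1)) (p (2 * i + 3)) := by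
          rw [← Q_mul M (hdir c hc) _ hlt1.le (show p (2 * i + 1) ≤ p (2 * i + 3) by omega)]
          congr 1
          rw [← hmix σ _ _ hlt1.le c hc, ← hmix (fun _ => True) _ _ hlt1.le c hc]
          refine congrFun ?_ c
          apply seg_congr
          intro l h1 h2
          rw [mix_pos (by simp only [hσ]; omega), mix_pos trivial]
        rw [e1]
        apply exists_right_of_rank_le
        rw [← e1]
        calc _ ≤ rk M (dir c) (x c) (p (2 * i)) (p (2 * i + 1)) := rank_Q_le M _ _ _ _ _
          _ = rk M (dir c) (x c) (p (2 * i)) (p (2 * i + 3)) := (hcomp c hc).symm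
          _ = _ := by
            unfold rk Q pt
            cases hd : dir c with
            | true =>
              simp only [if_true]
              rw [hrank _ (pset_subset S s q σ) _ _ (hx1 c hc _).1
                ((hdir c hc).1 hd (by omega)) (hx1 c hc _).2]
            | false =>
              simp only [Bool.false_eq_true, if_false]
              rw [Matrix.rank_transpose, hrank _ (pset_subset S s q σ) _ _ (hx1 c hc _).1
                ((hdir c hc).2 hd (by omega)) (hx1 c hc _).2]
      · rw [hmix' _ _ _ c hc, hmix' _ _ _ c hc]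
        exact ⟨1, by simp⟩
    choose Z hZ using hZ
    exact ⟨Z, funext hZ⟩

/-- an independent set in a graph of small closed neighbourhoods -/
theorem exists_independent {ι : Type*} [DecidableEq ι] (C : ι → ι → Prop) (Δ : ℕ)
    (hsymm : ∀ i j, C i j → C j i) : ∀ (m : ℕ) (S : Finset ι), S.card = m →
    (∀ i ∈ S, ∀ T ⊆ S, (∀ j ∈ T, j = i ∨ C i j) → T.card ≤ Δ) →
    ∃ I ⊆ S, S.card ≤ Δ * I.card ∧ ∀ i ∈ I, ∀ j ∈ I, C i j → i = j := by
  classical
  intro m
  induction m using Nat.strong_induction_on with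
  | _ m ih =>
    intro S hS hdeg
    rcases S.eq_empty_or_nonempty with h0 | ⟨i, hi⟩
    · subst h0
      exact ⟨∅, by simp, by simp, by simp⟩
    set T := S.filter (fun j => j = i ∨ C i j) with hT
    set S' := S.filter (fun j => ¬ (j = i ∨ C i j)) with hS'
    have hiT : i ∈ T := by rw [hT, Finset.mem_filter]; exact ⟨hi, Or.inl rfl⟩
    have hcard : T.card + S'.card = S.card := by
      rw [hT, hS', Finset.card_filter_add_card_filter_not]
    have hTpos : 0 < T.card := Finset.card_pos.mpr ⟨i, hiT⟩
    have hTΔ : T.card ≤ Δ := hdeg i hi T (Finset.filter_subset _ _) (by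
      intro j hj
      rw [hT, Finset.mem_filter] at hj
      exact hj.2)
    have hS'S : S' ⊆ S := Finset.filter_subset _ _
    obtain ⟨I, hI, hIc, hII⟩ := ih S'.card (by omega) S' rfl (by
      intro j hj T' hT' h
      exact hdeg j (hS'S hj) T' (hT'.trans hS'S) h)
    have hiI : i ∉ I := by
      intro h
      have := hI h
      rw [hS', Finset.mem_filter] at this
      exact this.2 (Or.inl rfl)
    refine ⟨insert i I, ?_, ?_, ?_⟩
    · intro j hj
      rw [Finset.mem_insert] at hj
      rcases hj with rfl | hj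
      · exact hi
      · exact hS'S (hI hj)
    · rw [Finset.card_insert_of_notMem hiI, Nat.mul_succ]
      omega
    · intro j hj j' hj' hC
      rw [Finset.mem_insert] at hj hj'
      have hno : ∀ j ∈ I, ¬ C i j := by
        intro j hj h
        have := hI hj
        rw [hS', Finset.mem_filter] at this
        exact this.2 (Or.inr h)
      rcases hj with rfl | hj
      · rcases hj' with rfl | hj'
        · rfl
        · exact absurd hC (hno j' hj')
      · rcases hj' with rfl | hj'
        · exact absurd (hsymm _ _ hC) (hno j hj)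
        · exact hII j hj j' hj' hC

/-- number of functions in the spanning set -/
def kapW (w k : ℕ) : ℕ := (2 ^ k * (w * w) + 1) ^ (2 ^ k * w)

/-- number of letters needed in a tiling -/
def kapq (w k : ℕ) : ℕ := (2 * kapW w k + 1) ^ (2 ^ k * w + 1)

/-- the critical constant for layers with at most `s` variables -/
def kapL (w k s : ℕ) : ℕ := (k * s + 1) * (kapq w k + 1) ^ 2 ^ 2 ^ k + 2 * s

theorem critCore_local (N k sz : ℕ) (B : ℕ → Finset (Fin n))
    (hB : ∀ l, ∀ i, Occ M l i → i ∈ B l) (hsz : ∀ l, (B l).card ≤ sz)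
    (hk : ∀ i, ((Finset.range N).filter (fun l => i ∈ B l)).card ≤ k) :
    CritCore M N (kapL w k sz) := by
  classical
  intro γ y S a b hab hbN R hR U V hdet hmin hrank
  by_contra hlarge
  push Not at hlarge
  -- every letter of `S` occurs
  have hocc : ∀ i ∈ S, ∃ j, a ≤ j ∧ j < b ∧ Occ M j i := by
    intro i hi
    by_contra hcon
    push Not at hcon
    have h1 := hmin (S.erase i) (Finset.erase_ssubset hi)
    apply hdet
    rw [← h1]
    congr 3
    apply P_congr
    intro j h2 h3 i' hi'
    have h4 : i' ≠ i := fun h => hcon j h2 h3 (h ▸ hi')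
    by_cases h5 : i' ∈ S
    · rw [put_mem h5, put_mem (Finset.mem_erase.mpr ⟨h4, h5⟩)]
    · rw [put_not_mem h5, put_not_mem (fun h => h5 (Finset.mem_of_mem_erase h))]
  by_cases hab2 : b ≤ a + 1
  · have hsub : S ⊆ B a := by
      intro i hi
      obtain ⟨j, h1, h2, h3⟩ := hocc i hi
      have : j = a := by omega
      rw [← this]
      exact hB j i h3
    have h1 := Finset.card_le_card hsub
    have h2 := hsz a
    unfold kapL at hlarge
    omega
  push Not at hab2
  set S' := (S \ B a) \ B (b - 1) with hS'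
  have hcard : (k * sz + 1) * tb k (kapq w k) < S'.card := by
    have h1 : S.card ≤ S'.card + (B a ∪ B (b - 1)).card := by
      have : S ⊆ S' ∪ (B a ∪ B (b - 1)) := by
        intro i hi
        by_cases h : i ∈ B a ∪ B (b - 1)
        · exact Finset.mem_union_right _ h
        · apply Finset.mem_union_left
          rw [Finset.mem_union, not_or] at h
          rw [hS', Finset.mem_sdiff, Finset.mem_sdiff]
          exact ⟨⟨hi, h.1⟩, h.2⟩
      exact (Finset.card_le_card this).trans (Finset.card_union_le _ _)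
    have h2 := Finset.card_union_le (B a) (B (b - 1))
    have h3 := hsz a
    have h4 := hsz (b - 1)
    have h5 := Nat.mul_le_mul_left (k * sz + 1) (tb_le' k (kapq w k))
    unfold kapL at hlarge
    omega
  -- independent letters
  set C : Fin n → Fin n → Prop := fun i j => ∃ l, l < N ∧ i ∈ B l ∧ j ∈ B l with hC
  obtain ⟨I, hIS, hIc, hII⟩ := exists_independent C (k * sz + 1)
    (by rintro i j ⟨l, h1, h2, h3⟩; exact ⟨l, h1, h3, h2⟩) S'.card S' rfl (by
      intro i _ T _ hT
      have hsub : T ⊆ insert i (((Finset.range N).filter (fun l => i ∈ B l)).biUnion B) := by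
        intro j hj
        rw [Finset.mem_insert]
        rcases hT j hj with h | ⟨l, h1, h2, h3⟩
        · exact Or.inl h
        · right
          rw [Finset.mem_biUnion]
          exact ⟨l, by rw [Finset.mem_filter, Finset.mem_range]; exact ⟨h1, h2⟩, h3⟩
      refine (Finset.card_le_card hsub).trans ((Finset.card_insert_le _ _).trans ?_)
      have h1 : (((Finset.range N).filter (fun l => i ∈ B l)).biUnion B).card ≤
          ((Finset.range N).filter (fun l => i ∈ B l)).card * sz :=
        Finset.card_biUnion_le_card_mul _ _ _ (fun l _ => hsz l)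
      have h2 := Nat.mul_le_mul_right sz (hk i)
      omega)
  have hIcard : tb k (kapq w k) ≤ I.card := by
    by_contra hcon
    push Not at hcon
    have := Nat.mul_le_mul_left (k * sz + 1) hcon.le
    omega
  -- the word
  have hν0 : ∀ j, ∃ o : Option (Fin n), ∀ i ∈ I, j < N → (i ∈ B j ↔ o = some i) := by
    intro j
    by_cases h : ∃ i ∈ I, i ∈ B j
    · obtain ⟨i, hi, hij⟩ := h
      refine ⟨some i, fun i' hi' hj => ⟨fun h => ?_, fun h => ?_⟩⟩
      · rw [hII i hi i' hi' ⟨j, hj, hij, h⟩]
      · rw [Option.some.injEq] at h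
        rw [← h]; exact hij
    · refine ⟨none, fun i' hi' hj => ⟨fun h' => absurd ⟨i', hi', h'⟩ h, fun h => by simp at h⟩⟩
  choose ν hν using hν0
  have hne : ∃ i0 : Fin n, i0 ∈ S := by
    have : 0 < S.card := by omega
    exact Finset.card_pos.mp this
  obtain ⟨i0, _⟩ := hne
  set s : ℕ → Fin n := fun l => if h : l < I.card then I.orderEmbOfFin rfl ⟨l, h⟩ else i0
    with hs
  have hsmem : ∀ l < I.card, s l ∈ I := by
    intro l hl
    simp only [hs, hl, dif_pos]
    exact Finset.orderEmbOfFin_mem _ _ _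
  have hinj : ∀ i ∈ Finset.range I.card, ∀ j ∈ Finset.range I.card,
      (some (s i) : Option (Fin n)) = some (s j) → i = j := by
    intro i hi j hj hij
    rw [Finset.mem_range] at hi hj
    rw [Option.some.injEq] at hij
    simp only [hs, hi, hj, dif_pos] at hij
    have := (I.orderEmbOfFin rfl).injective hij
    simpa using this
  obtain ⟨D, hD, hDc, t, ht, hT⟩ := tile ν (fun l => some (s l)) k (kapq w k) (a + 1) (b - 1)
    (by omega) (Finset.range I.card) (by simpa using hIcard) hinj (by
      intro l hl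
      rw [Finset.mem_range] at hl
      refine le_trans (Finset.card_le_card ?_) (hk (s l))
      intro j hj
      rw [Finset.mem_filter, Finset.mem_Ico] at hj
      rw [Finset.mem_filter, Finset.mem_range]
      exact ⟨by omega, (hν j (s l) (hsmem l hl) (by omega)).mpr hj.2⟩)
  obtain ⟨σ, hσ, hσB⟩ := exists_strictMono D (kapq w k) hDc
  have hσI : ∀ l < kapq w k, s (σ l) ∈ I := fun l hl =>
    hsmem (σ l) (Finset.mem_range.mp (hD (hσB l hl)))
  refine no_tiling (M := M) γ y S a b (by omega) R hR U V hdet hmin hrank (s ∘ σ) (2 ^ k) t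
    (kapW w k) (kapq w k) ht ?_ ν ?_
    (hT.comp hσ (fun l hl => hσB l (Finset.mem_range.mp hl))) le_rfl le_rfl
  · intro l hl
    have h1 := hIS (hσI l hl)
    rw [hS', Finset.mem_sdiff, Finset.mem_sdiff] at h1
    exact ⟨h1.1.1, fun h => h1.1.2 (hB _ _ h), fun h => h1.2 (hB _ _ h)⟩
  · intro j h1 h2 l hl h3
    exact (hν j (s (σ l)) (hσI l hl) (by omega)).mp (hB j _ h3)

end Main

end Pool.Agent.Helper8.Loc
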