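import Pool.Agent.Helper8.Loc.Defs
import Pool.Agent.Helper8.Loc.CritK
import Pool.Agent.Helper5.Gen

/-!
The hitting theorem for programs with local layers.
-/

namespace Pool.Agent.Helper8.Loc

open Module Matrix Pool.Agent.Helper5 Pool.Agent.Helper8

variable {w n : ℕ}

section

variable (M : ℕ → Matrix (Fin w) (Fin w) (MvPolynomial (Fin n) ℚ))

theorem isPolyMap_gen (n c : ℕ) : Loc.IsPolyMap (gen n c) :=
  ⟨genPoly n c, fun s i => (eval_genPoly n c s i).symm⟩

theorem G_common (c : ℕ) (J : Finset (ℕ × ℕ)) (r : ℕ × ℕ → ℕ)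
    (h : ∀ ab ∈ J, ∃ g ∈ Helper5.G n c, r ab ≤ (Loc.P M g ab.1 ab.2).rank) :
    ∃ g ∈ Helper5.G n c, ∀ ab ∈ J, r ab ≤ (Loc.P M g ab.1 ab.2).rank := by
  classical
  have h1 : ∀ ab, ∃ (U : Matrix (Fin (r ab)) (Fin w) ℚ) (V : Matrix (Fin w) (Fin (r ab)) ℚ),
      ab ∈ J → ∃ s, (U * Loc.P M (gen n c s) ab.1 ab.2 * V).det ≠ 0 := by
    intro ab
    by_cases hab : ab ∈ J
    · obtain ⟨g, ⟨s, rfl⟩, hr⟩ := h ab hab
      obtain ⟨U, V, hUV⟩ := exists_mul_eq_one_of_le_rank _ hr
      exact ⟨U, V, fun _ => ⟨s, by rw [hUV, Matrix.det_one]; exact one_ne_zero⟩⟩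
    · exact ⟨0, 0, fun h => absurd h hab⟩
  choose U V hUV using h1
  have h2 : ∀ ab : ℕ × ℕ, ∃ p : MvPolynomial (Fin c ⊕ Fin c) ℚ, ∀ s, MvPolynomial.eval s p =
      (U ab * Loc.P M (gen n c s) ab.1 ab.2 * V ab).det :=
    fun ab => Loc.det_poly M (isPolyMap_gen n c) _ _ _ _
  choose p hp using h2
  obtain ⟨s, hs⟩ := Loc.exists_common_poly J p (fun ab hab => by
    obtain ⟨s, hs⟩ := hUV ab hab
    exact ⟨s, by rw [hp]; exact hs⟩)
  refine ⟨gen n c s, ⟨s, rfl⟩, fun ab hab => ?_⟩
  have := hs ab hab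
  rw [hp] at this
  exact le_rank_of_det_ne_zero _ _ this

theorem exists_seed (N κ : ℕ) (hcore : Loc.CritCore M N κ) (u v : Fin w → ℚ)
    (hf : ∃ x, u ⬝ᵥ (Loc.P M x 0 N *ᵥ v) ≠ 0) :
    ∃ s, u ⬝ᵥ (Loc.P M (gen n ((w + 1) * κ) s) 0 N *ᵥ v) ≠ 0 := by
  obtain ⟨g, ⟨s, rfl⟩, hg⟩ := Loc.hits M N κ κ (Loc.crit_of_core M N κ hcore) (Helper5.G n)
    ⟨gen n 0 (fun _ => 0), ⟨_, rfl⟩⟩ (fun c c' h => G_mono h) (G_common M) (by
      intro c g hg a b hab hbN R hR U V hnear
      obtain ⟨x', S, hS, hx, hdet⟩ := hnear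
      exact ⟨x', G_step hg x' S hS hx, hdet⟩) u v hf
  exact ⟨s, hg⟩

end

theorem list_ofFn_eq {α : Type*} {N : ℕ} (F : Fin N → α) (F' : ℕ → α)
    (h : ∀ l : Fin N, F' l = F l) : List.ofFn F = (List.Ico 0 N).map F' := by
  rw [List.Ico.zero_bot]
  apply List.ext_getElem
  · simp
  · intro i h1 h2
    simp only [List.getElem_ofFn, List.getElem_map, List.getElem_range]
    exact (h ⟨i, by simpa using h1⟩).symm

/-- extension of the layers to all indices -/
noncomputable def extM {N : ℕ} (M : Fin N → Matrix (Fin w) (Fin w) (MvPolynomial (Fin n) ℚ))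
    (l : ℕ) : Matrix (Fin w) (Fin w) (MvPolynomial (Fin n) ℚ) := if h : l < N then M ⟨l, h⟩ else 1

/-- extension of the variable sets -/
def extB {N : ℕ} (B : Fin N → Finset (Fin n)) (l : ℕ) : Finset (Fin n) :=
  if h : l < N then B ⟨l, h⟩ else ∅

theorem eval_prog {N : ℕ} (M : Fin N → Matrix (Fin w) (Fin w) (MvPolynomial (Fin n) ℚ))
    (u v : Fin w → ℚ) (g : Fin n → ℚ) :
    MvPolynomial.eval g ((fun a => MvPolynomial.C (u a)) ⬝ᵥ
      ((List.ofFn M).prod *ᵥ fun b => MvPolynomial.C (v b))) =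
    u ⬝ᵥ (Loc.P (extM M) g 0 N *ᵥ v) := by
  have h1 : ((List.ofFn M).prod).map (MvPolynomial.eval g) = Loc.P (extM M) g 0 N := by
    rw [list_ofFn_eq _ (extM M) (fun l => by simp [extM])]
    have := Loc.seg_map (MvPolynomial.eval g) (extM M) 0 N
    rw [seg] at this
    rw [this, Loc.P]
    rfl
  rw [← h1]
  simp only [dotProduct, Matrix.mulVec, map_sum, map_mul, MvPolynomial.eval_C, Matrix.map_apply]

theorem totalDegree_eq_zero_of_vars (p : MvPolynomial (Fin n) ℚ) (h : p.vars ⊆ ∅) :
    p.totalDegree = 0 := by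
  have h1 : p ∈ MvPolynomial.supported ℚ (∅ : Set (Fin n)) := by
    rw [MvPolynomial.mem_supported]
    intro i hi
    have := h hi
    simp at this
  rw [MvPolynomial.supported_empty, Algebra.mem_bot] at h1
  obtain ⟨r, rfl⟩ := h1
  exact MvPolynomial.totalDegree_C r

theorem totalDegree_seg (M : ℕ → Matrix (Fin w) (Fin w) (MvPolynomial (Fin n) ℚ)) (δ : ℕ → ℕ)
    (h : ∀ l i j, (M l i j).totalDegree ≤ δ l) (N : ℕ) :
    ∀ i j, (seg M 0 N i j).totalDegree ≤ ∑ l ∈ Finset.range N, δ l := by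
  induction N with
  | zero =>
    intro i j
    rw [seg_self, Matrix.one_apply]
    split_ifs <;> simp
  | succ N ih =>
    intro i j
    rw [seg_succ _ (Nat.zero_le N), Matrix.mul_apply, Finset.sum_range_succ]
    apply MvPolynomial.totalDegree_finsetSum_le
    intro m _
    refine (MvPolynomial.totalDegree_mul _ _).trans ?_
    exact Nat.add_le_add (ih i m) (h N m j)

theorem totalDegree_prog {N k d s : ℕ} (B : Fin N → Finset (Fin n))
    (M : Fin N → Matrix (Fin w) (Fin w) (MvPolynomial (Fin n) ℚ)) (u v : Fin w → ℚ)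
    (_hs : ∀ l, (B l).card ≤ s)
    (hk : ∀ i : Fin n, (Finset.univ.filter fun l : Fin N => i ∈ B l).card ≤ k)
    (hd : ∀ l a b, (M l a b).vars ⊆ B l ∧ (M l a b).totalDegree ≤ d) :
    ((fun a => MvPolynomial.C (u a)) ⬝ᵥ
      ((List.ofFn M).prod *ᵥ fun b => MvPolynomial.C (v b))).totalDegree ≤ k * n * d := by
  classical
  set δ : ℕ → ℕ := fun l => (extB B l).card * d with hδ
  have h0 : ∀ l i j, (extM M l i j).totalDegree ≤ δ l := by
    intro l i j
    by_cases hl : l < N
    · simp only [extM, hδ, extB, hl, dif_pos]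
      by_cases hB : B ⟨l, hl⟩ = ∅
      · rw [totalDegree_eq_zero_of_vars _ (by rw [← hB]; exact (hd ⟨l, hl⟩ i j).1)]
        exact Nat.zero_le _
      · have h1 : 1 ≤ (B ⟨l, hl⟩).card := Finset.card_pos.mpr (Finset.nonempty_iff_ne_empty.mpr hB)
        calc _ ≤ d := (hd ⟨l, hl⟩ i j).2
          _ = 1 * d := (one_mul d).symm
          _ ≤ _ := Nat.mul_le_mul_right _ h1
    · simp only [extM, hl, dif_neg, not_false_eq_true, Matrix.one_apply]
      split_ifs <;> simp
  have h1 := totalDegree_seg (extM M) δ h0 N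
  have hsum : ∑ l ∈ Finset.range N, δ l ≤ k * n * d := by
    rw [hδ, ← Finset.sum_mul]
    apply Nat.mul_le_mul_right
    have e1 : ∑ l ∈ Finset.range N, (extB B l).card = ∑ l : Fin N, (B l).card := by
      rw [Finset.sum_range]
      apply Finset.sum_congr rfl
      intro l _
      simp [extB]
    have e2 : ∑ l : Fin N, (B l).card =
        ∑ i : Fin n, (Finset.univ.filter fun l : Fin N => i ∈ B l).card := by
      have := Finset.sum_card_bipartiteAbove_eq_sum_card_bipartiteBelow
        (s := (Finset.univ : Finset (Fin N))) (t := (Finset.univ : Finset (Fin n)))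
        (fun l i => i ∈ B l)
      simp only [Finset.bipartiteAbove, Finset.bipartiteBelow] at this
      simpa using this
    rw [e1, e2]
    calc _ ≤ ∑ _i : Fin n, k := Finset.sum_le_sum fun i _ => hk i
      _ = k * n := by simp [mul_comm]
  have h2 : ∀ i j, ((List.ofFn M).prod i j).totalDegree ≤ k * n * d := by
    intro i j
    rw [list_ofFn_eq _ (extM M) (fun l => by simp [extM])]
    exact (h1 i j).trans hsum
  unfold dotProduct
  apply MvPolynomial.totalDegree_finsetSum_le
  intro a _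
  refine (MvPolynomial.totalDegree_mul _ _).trans ?_
  rw [MvPolynomial.totalDegree_C, zero_add, Matrix.mulVec, dotProduct]
  apply MvPolynomial.totalDegree_finsetSum_le
  intro b _
  refine (MvPolynomial.totalDegree_mul _ _).trans ?_
  rw [MvPolynomial.totalDegree_C, add_zero]
  exact h2 a b

theorem card_points (n c D : ℕ) :
    (LocalABP.points n c D).card ≤ ((D + 1) * (n * D + 1)) ^ c := card_hittingSet n c D

theorem exponent_eq (w k s : ℕ) : LocalABP.exponent w k s = (w + 1) * kapL w k s := by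
  unfold LocalABP.exponent kapL kapq kapW
  rw [sq]

/-- **Main theorem** for programs with local layers. -/
theorem hit_local (w k s d n : ℕ) (f : MvPolynomial (Fin n) ℚ)
    (hf : LocalABP.Computes w k s d n f) (hf0 : f ≠ 0) :
    ∃ a ∈ LocalABP.points n (LocalABP.exponent w k s) (k * n * d), MvPolynomial.eval a f ≠ 0 := by
  classical
  rw [exponent_eq]
  obtain ⟨N, B, M, u, v, hs, hk, hd, rfl⟩ := hf
  apply hit_grid _ (k * n * d)
  · exact totalDegree_prog B M u v hs hk hd
  · have hcore := critCore_local (M := extM M) N k s (extB B) (by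
      rintro l i ⟨a, b, hi⟩
      by_cases hl : l < N
      · simp only [extM, hl, dif_pos] at hi
        simp only [extB, hl, dif_pos]
        exact (hd ⟨l, hl⟩ a b).1 hi
      · exfalso
        simp only [extM, hl, dif_neg, not_false_eq_true, Matrix.one_apply] at hi
        split_ifs at hi <;> simp at hi) (by
      intro l
      by_cases hl : l < N
      · simp only [extB, hl, dif_pos]; exact hs _
      · simp [extB, hl]) (by
      intro i
      refine le_trans ?_ (hk i)
      have : ((Finset.range N).filter fun l => i ∈ extB B l) =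
          ((Finset.univ.filter fun l : Fin N => i ∈ B l).map Fin.valEmbedding) := by
        ext l
        simp only [Finset.mem_filter, Finset.mem_range, Finset.mem_map, Finset.mem_univ,
          true_and, Fin.valEmbedding_apply]
        constructor
        · rintro ⟨h1, h2⟩
          refine ⟨⟨l, h1⟩, ?_, rfl⟩
          simpa [extB, h1] using h2
        · rintro ⟨l', h1, rfl⟩
          refine ⟨l'.2, ?_⟩
          simpa [extB] using h1
      rw [this, Finset.card_map])
    obtain ⟨s, hs⟩ := exists_seed (extM M) N _ hcore u v (by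
      by_contra hcon
      push Not at hcon
      apply hf0
      apply MvPolynomial.funext
      intro x
      rw [eval_prog M u v x, hcon x]; simp)
    exact ⟨s, by rw [eval_prog M u v]; exact hs⟩

end Pool.Agent.Helper8.Loc
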