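import Mathlib

/-!
Definitions used in the statement: algebraic branching programs with local layers and the explicit
point set.
-/

namespace Pool.Agent.Helper8.LocalABP

open Matrix

/-- `f` is computed by an algebraic branching program over `ℚ` of width `w` in `n` variables with
local layers: `f = uᵀ * M₀ * ⋯ * M_{N-1} * v`, where the entries of the `w × w` matrix `M_l` are
polynomials of total degree at most `d` in the variables `x_i`, `i ∈ B_l`, every set `B_l` has at
most `s` elements, and every variable lies in at most `k` of the sets `B_l`. -/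
def Computes (w k s d n : ℕ) (f : MvPolynomial (Fin n) ℚ) : Prop :=
  ∃ (N : ℕ) (B : Fin N → Finset (Fin n))
    (M : Fin N → Matrix (Fin w) (Fin w) (MvPolynomial (Fin n) ℚ)) (u v : Fin w → ℚ),
    (∀ l, (B l).card ≤ s) ∧
    (∀ i : Fin n, (Finset.univ.filter fun l : Fin N => i ∈ B l).card ≤ k) ∧
    (∀ l a b, (M l a b).vars ⊆ B l ∧ (M l a b).totalDegree ≤ d) ∧
    f = (fun a => MvPolynomial.C (u a)) ⬝ᵥ
      ((List.ofFn M).prod *ᵥ fun b => MvPolynomial.C (v b))

/-- The explicit set of points `(∑_{l<c} z_l ∏_{j ≠ i} (y_l - j))_{i<n}` with integers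
`0 ≤ z_l ≤ D` and `0 ≤ y_l ≤ n * D`. -/
def points (n c D : ℕ) : Finset (Fin n → ℚ) :=
  ((Fintype.piFinset fun _ : Fin c => Finset.range (D + 1)) ×ˢ
    (Fintype.piFinset fun _ : Fin c => Finset.range (n * D + 1))).image
    fun p i => ∑ l : Fin c, (p.1 l : ℚ) * ∏ j ∈ Finset.univ.erase i, ((p.2 l : ℚ) - (j.val : ℚ))

/-- The exponent of the bound on the size of the hitting set. -/
def exponent (w k s : ℕ) : ℕ :=
  (w + 1) * ((k * s + 1) *
    ((2 * (2 ^ k * w ^ 2 + 1) ^ (2 ^ k * w) + 1) ^ (2 ^ k * w + 1) + 1) ^ 2 ^ 2 ^ k + 2 * s)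

end Pool.Agent.Helper8.LocalABP
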