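import Pool.Agent.Helper5.Chain
import Pool.Agent.Helper5.MatRank

/-!
Products of layers depending on several variables, evaluated at points, generic ranks.
-/

namespace Pool.Agent.Helper8.Loc

open Module Matrix Pool.Agent.Helper5

variable {K : Type*} [Field K] {w n : ℕ}

/-- the layer `l` evaluated at the point `g` -/
noncomputable def ev (M : ℕ → Matrix (Fin w) (Fin w) (MvPolynomial (Fin n) K)) (g : Fin n → K)
    (l : ℕ) : Matrix (Fin w) (Fin w) K :=
  (M l).map (MvPolynomial.eval g)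

/-- product of the layers `a ≤ l < b` evaluated at the point `g` -/
noncomputable def P (M : ℕ → Matrix (Fin w) (Fin w) (MvPolynomial (Fin n) K)) (g : Fin n → K)
    (a b : ℕ) : Matrix (Fin w) (Fin w) K := seg (ev M g) a b

/-- the variable `i` occurs in the layer `l` -/
def Occ (M : ℕ → Matrix (Fin w) (Fin w) (MvPolynomial (Fin n) K)) (l : ℕ) (i : Fin n) : Prop :=
  ∃ a b, i ∈ (M l a b).vars

variable (M : ℕ → Matrix (Fin w) (Fin w) (MvPolynomial (Fin n) K))

theorem P_self (g : Fin n → K) (a : ℕ) : P M g a a = 1 := seg_self _ _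

theorem P_mul (g : Fin n → K) {a b c : ℕ} (h1 : a ≤ b) (h2 : b ≤ c) :
    P M g a b * P M g b c = P M g a c := seg_mul _ h1 h2

theorem ev_congr {g g' : Fin n → K} {l : ℕ} (h : ∀ i, Occ M l i → g i = g' i) :
    ev M g l = ev M g' l := by
  unfold ev
  ext a b
  simp only [Matrix.map_apply]
  apply MvPolynomial.eval₂Hom_congr' rfl _ rfl
  intro i hi _
  exact h i ⟨a, b, hi⟩

theorem P_congr {g g' : Fin n → K} {a b : ℕ}
    (h : ∀ l, a ≤ l → l < b → ∀ i, Occ M l i → g i = g' i) :
    P M g a b = P M g' a b := by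
  apply seg_congr
  intro l h1 h2
  exact ev_congr M (h l h1 h2)

/-- generic rank of the product of the layers `a ≤ l < b` -/
noncomputable def rho (a b : ℕ) : ℕ := by
  classical
  exact Nat.findGreatest (fun r => ∃ g : Fin n → K, r ≤ (P M g a b).rank) w

theorem rank_le_rho (g : Fin n → K) (a b : ℕ) : (P M g a b).rank ≤ rho M a b := by
  classical
  unfold rho
  apply Nat.le_findGreatest
  · exact Matrix.rank_le_width _
  · exact ⟨g, le_rfl⟩

theorem exists_rank_eq_rho (a b : ℕ) : ∃ g : Fin n → K, (P M g a b).rank = rho M a b := by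
  classical
  have h : ∃ g : Fin n → K, rho M a b ≤ (P M g a b).rank := by
    unfold rho
    exact Nat.findGreatest_spec (P := fun r => ∃ g : Fin n → K, r ≤ (P M g a b).rank)
      (Nat.zero_le w) ⟨fun _ => 0, Nat.zero_le _⟩
  obtain ⟨g, hg⟩ := h
  exact ⟨g, le_antisymm (rank_le_rho M g a b) hg⟩

theorem rho_le (a b : ℕ) : rho M a b ≤ w := by
  obtain ⟨g, hg⟩ := exists_rank_eq_rho M a b
  rw [← hg]; exact Matrix.rank_le_width _

theorem rho_self (a : ℕ) : rho M a a = w := by
  obtain ⟨g, hg⟩ := exists_rank_eq_rho M a a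
  rw [← hg, P_self]; simp

theorem rho_anti {i i' j' j : ℕ} (h1 : i ≤ i') (h2 : i' ≤ j') (h3 : j' ≤ j) :
    rho M i j ≤ rho M i' j' := by
  obtain ⟨g, hg⟩ := exists_rank_eq_rho M i j
  refine le_trans ?_ (rank_le_rho M g i' j')
  rw [← hg, ← P_mul M g (h1.trans h2) h3, ← P_mul M g h1 h2]
  exact (Matrix.rank_mul_le_left _ _).trans (Matrix.rank_mul_le_right _ _)

section Poly

variable {σ : Type*}

/-- polynomial maps into `K^n` -/
def IsPolyMap (x : (σ → K) → (Fin n → K)) : Prop :=
  ∃ X : Fin n → MvPolynomial σ K, ∀ s i, x s i = MvPolynomial.eval s (X i)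

theorem seg_map {A B : Type*} [Semiring A] [Semiring B] (φ : A →+* B)
    (f : ℕ → Matrix (Fin w) (Fin w) A) (a b : ℕ) :
    (seg f a b).map φ = seg (fun l => (f l).map φ) a b := by
  have : ∀ N : Matrix (Fin w) (Fin w) A, N.map φ = φ.mapMatrix N := fun N => rfl
  unfold seg
  rw [this, map_list_prod, List.map_map]
  rfl

theorem det_poly {R : ℕ} {x : (σ → K) → (Fin n → K)} (hx : IsPolyMap x)
    (U : Matrix (Fin R) (Fin w) K) (V : Matrix (Fin w) (Fin R) K) (a b : ℕ) :
    ∃ p : MvPolynomial σ K, ∀ s, MvPolynomial.eval s p = (U * P M (x s) a b * V).det := by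
  obtain ⟨X, hX⟩ := hx
  set N : ℕ → Matrix (Fin w) (Fin w) (MvPolynomial σ K) :=
    fun l => (M l).map (MvPolynomial.aeval X) with hN
  refine ⟨(U.map (MvPolynomial.C : K →+* MvPolynomial σ K) * seg N a b *
    V.map (MvPolynomial.C : K →+* MvPolynomial σ K)).det, fun s => ?_⟩
  rw [RingHom.map_det, RingHom.mapMatrix_apply]
  congr 1
  rw [Matrix.map_mul, Matrix.map_mul, seg_map]
  congr 1
  · congr 1
    · ext i j; simp
    · unfold P
      apply seg_congr
      intro l _ _
      unfold ev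
      ext i j
      simp only [hN, Matrix.map_apply]
      have hxs : x s = fun i => MvPolynomial.eval s (X i) := funext (hX s)
      rw [hxs]
      rw [MvPolynomial.aeval_def, ← MvPolynomial.coe_eval₂Hom, ← RingHom.comp_apply]
      congr 1
      apply MvPolynomial.ringHom_ext
      · intro r; simp
      · intro i; simp
  · ext i j; simp

theorem exists_common_poly [Infinite K] {ι : Type*} (J : Finset ι) (p : ι → MvPolynomial σ K)
    (hp : ∀ j ∈ J, ∃ s, MvPolynomial.eval s (p j) ≠ 0) :
    ∃ s, ∀ j ∈ J, MvPolynomial.eval s (p j) ≠ 0 := by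
  have h1 : ∏ j ∈ J, p j ≠ 0 := by
    rw [Finset.prod_ne_zero_iff]
    intro j hj h0
    obtain ⟨s, hs⟩ := hp j hj
    rw [h0] at hs
    simp at hs
  have h2 : ∃ s, MvPolynomial.eval s (∏ j ∈ J, p j) ≠ 0 := by
    by_contra hcon
    push Not at hcon
    apply h1
    apply MvPolynomial.funext
    intro s
    rw [hcon s]; simp
  obtain ⟨s, hs⟩ := h2
  refine ⟨s, fun j hj h0 => hs ?_⟩
  rw [map_prod]
  exact Finset.prod_eq_zero hj h0

end Poly

end Pool.Agent.Helper8.Loc
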