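import Pool.Agent.Helper8.Loc.Final

namespace Pool.Agent.Helper8.Loc.Single

open Pool.Agent.Helper8 LocalABP

theorem result : ∀ w k s n d : ℕ,
    (points n (exponent w k s) (k * n * d)).card ≤
        ((k * n * d + 1) * (n * (k * n * d) + 1)) ^ exponent w k s ∧
      ∀ f : MvPolynomial (Fin n) ℚ, Computes w k s d n f → f ≠ 0 →
        ∃ a ∈ points n (exponent w k s) (k * n * d), MvPolynomial.eval a f ≠ 0 :=
  fun w k s n d => ⟨Loc.card_points _ _ _, fun f hf hf0 => Loc.hit_local w k s d n f hf hf0⟩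

end Pool.Agent.Helper8.Loc.Single
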